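import Mathlib.Combinatorics.SimpleGraph.Acyclic
import Mathlib.Combinatorics.SimpleGraph.Finite
import Mathlib.Data.Fintype.Card
import Mathlib.Order.Nat

set_option autoImplicit false

/-!
# Strong arboricity: definitions
-/

namespace Pool.Agent.Q271.SA

open SimpleGraph

variable {V : Type*}

/-- An edge colouring (a map on pairs, of which only the values on edges matter) is *strongly
woody* if no broken cycle is monochromatic: for every cycle `p` of `G` and every edge `e` of `p`,
the edges of `p` different from `e` do not all have the same colour. -/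
def StronglyWoody (G : SimpleGraph V) {C : Type*} (c : Sym2 V → C) : Prop :=
  ∀ (v : V) (p : G.Walk v v), p.IsCycle → ∀ e ∈ p.edges,
    ¬ ∃ a : C, ∀ f ∈ p.edges, f ≠ e → c f = a

/-- The strong arboricity: least number of colours in a strongly woody edge colouring. -/
noncomputable def zeta (G : SimpleGraph V) : ℕ :=
  sInf {k : ℕ | ∃ c : Sym2 V → Fin k, StronglyWoody G c}

/-- An edge colouring is *woody* if no cycle of `G` is monochromatic, i.e. every colour class is
(the edge set of) a forest. -/
def Woody (G : SimpleGraph V) {C : Type*} (c : Sym2 V → C) : Prop :=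
  ∀ (v : V) (p : G.Walk v v), p.IsCycle → ¬ ∃ a : C, ∀ f ∈ p.edges, c f = a

/-- The arboricity: least number of colours in a woody edge colouring. -/
noncomputable def arb (G : SimpleGraph V) : ℕ :=
  sInf {k : ℕ | ∃ c : Sym2 V → Fin k, Woody G c}

/-- `BackDeg G σ r`: in the linear ordering of the vertices given by the bijection `σ` onto
`Fin n` (with `n` the number of vertices), every vertex `v` has at most `r` neighbours that
precede `v`. -/
def BackDeg [Fintype V] (G : SimpleGraph V) (σ : V ≃ Fin (Fintype.card V)) (r : ℕ) : Prop :=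
  ∀ v : V, {w : V | G.Adj v w ∧ σ w < σ v}.ncard ≤ r

/-- The colouring number: the least `r` such that some ordering of the vertices has all
back-degrees at most `r - 1`, i.e. `1 +` the least possible maximum back-degree. -/
noncomputable def col [Fintype V] (G : SimpleGraph V) : ℕ :=
  1 + sInf {r : ℕ | ∃ σ : V ≃ Fin (Fintype.card V), BackDeg G σ r}

section basic

variable {G : SimpleGraph V} {C : Type*} {c : Sym2 V → C}

/-- The two edges of a triangle at a vertex have different colours. -/
lemma StronglyWoody.triangle (h : StronglyWoody G c) {u v w : V} (huv : G.Adj u v)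
    (hvw : G.Adj v w) (hwu : G.Adj w u) : c s(u, v) ≠ c s(v, w) := by
  intro he
  have hcyc : (Walk.cons huv (Walk.cons hvw (Walk.cons hwu Walk.nil)) : G.Walk u u).IsCycle := by
    rw [Walk.cons_isCycle_iff]
    refine ⟨?_, ?_⟩
    · rw [Walk.cons_isPath_iff, Walk.cons_isPath_iff]
      have h1 := hvw.ne
      have h2 := hwu.ne
      have h3 := huv.ne
      simp [h1, h2, h3.symm]
    · have h1 := hvw.ne
      have h2 := hwu.ne
      have h3 := huv.ne
      simp [Sym2.eq_iff, h1, h2, h3, h1.symm, h2.symm, h3.symm]
  refine h u _ hcyc s(w, u) (by simp) ⟨c s(u, v), ?_⟩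
  intro f hf hne
  simp only [Walk.edges_cons, Walk.edges_nil, List.mem_cons, List.not_mem_nil, or_false] at hf
  rcases hf with rfl | rfl | rfl
  · rfl
  · exact he.symm
  · exact absurd rfl hne

/-- Three consecutive edges of a 4-cycle do not all have the same colour. -/
lemma StronglyWoody.square (h : StronglyWoody G c) {x y z w : V} (hxy : G.Adj x y)
    (hyz : G.Adj y z) (hzw : G.Adj z w) (hwx : G.Adj w x) (hxz : x ≠ z) (hyw : y ≠ w)
    (h1 : c s(x, y) = c s(y, z)) (h2 : c s(y, z) = c s(z, w)) : False := by
  have hcyc : (Walk.cons hxy (Walk.cons hyz (Walk.cons hzw (Walk.cons hwx Walk.nil))) :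
      G.Walk x x).IsCycle := by
    have a1 := hxy.ne
    have a2 := hyz.ne
    have a3 := hzw.ne
    have a4 := hwx.ne
    rw [Walk.cons_isCycle_iff]
    refine ⟨?_, ?_⟩
    · rw [Walk.cons_isPath_iff, Walk.cons_isPath_iff, Walk.cons_isPath_iff]
      simp [a1, a2, a3, a4, a1.symm, a2.symm, a3.symm, a4.symm, hxz, hyw, hxz.symm, hyw.symm]
    · simp [Sym2.eq_iff, a1, a2, a3, a4, a1.symm, a2.symm, a3.symm, a4.symm, hxz, hyw,
        hxz.symm, hyw.symm]
  refine h x _ hcyc s(w, x) (by simp) ⟨c s(x, y), ?_⟩
  intro f hf hne
  simp only [Walk.edges_cons, Walk.edges_nil, List.mem_cons, List.not_mem_nil, or_false] at hf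
  rcases hf with rfl | rfl | rfl | rfl
  · rfl
  · exact h1.symm
  · exact (h1.trans h2).symm
  · exact absurd rfl hne

/-- An injective colouring is strongly woody. -/
lemma stronglyWoody_of_injective (hc : Function.Injective c) : StronglyWoody G c := by
  rintro v p hp e he ⟨a, ha⟩
  have h3 := hp.three_le_length
  have hn : p.edges.Nodup := hp.edges_nodup
  have hlen : p.edges.length = p.length := p.length_edges
  classical
  have hle : p.edges.toFinset.card ≤ 2 := by
    have hsub : p.edges.toFinset ⊆ insert e (p.edges.toFinset.filter (fun f => c f = a)) := by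
      intro f hf
      by_cases hfe : f = e
      · simp [hfe]
      · simp only [Finset.mem_insert, Finset.mem_filter]
        right
        exact ⟨hf, ha f (by simpa using hf) hfe⟩
    refine (Finset.card_le_card hsub).trans ?_
    refine (Finset.card_insert_le _ _).trans ?_
    have : (p.edges.toFinset.filter (fun f => c f = a)).card ≤ 1 := by
      rw [Finset.card_le_one]
      intro f hf g hg
      simp only [Finset.mem_filter] at hf hg
      exact hc (hf.2.trans hg.2.symm)
    omega
  rw [List.toFinset_card_of_nodup hn] at hle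
  omega

lemma zeta_set_nonempty [Finite V] (G : SimpleGraph V) :
    {k : ℕ | ∃ c : Sym2 V → Fin k, StronglyWoody G c}.Nonempty := by
  classical
  haveI := Fintype.ofFinite V
  exact ⟨Fintype.card (Sym2 V), (Fintype.equivFin (Sym2 V)),
    stronglyWoody_of_injective (Fintype.equivFin (Sym2 V)).injective⟩

lemma StronglyWoody.comp_injective {D : Type*} (h : StronglyWoody G c) {g : C → D}
    (hg : Function.Injective g) : StronglyWoody G (g ∘ c) := by
  rintro v p hp e he ⟨a, ha⟩
  have hex : ∃ f ∈ p.edges, f ≠ e := by
    have h3 := hp.three_le_length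
    have hn : p.edges.Nodup := hp.edges_nodup
    by_contra hcon
    push_neg at hcon
    have : p.edges.length ≤ 1 := by
      classical
      rw [← List.toFinset_card_of_nodup hn, Finset.card_le_one]
      intro a ha b hb
      rw [hcon a (by simpa using ha), hcon b (by simpa using hb)]
    rw [Walk.length_edges] at this
    omega
  obtain ⟨f0, hf0, hne0⟩ := hex
  refine h v p hp e he ⟨c f0, fun f hf hne => ?_⟩
  apply hg
  have e1 := ha f hf hne
  have e2 := ha f0 hf0 hne0
  simp only [Function.comp] at e1 e2
  rw [e1, e2]

/-- `k ≤ ζ(G)` as soon as no strongly woody colouring uses fewer than `k` colours. -/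
lemma le_zeta_of [Finite V] {k : ℕ} (h : ¬ ∃ c : Sym2 V → Fin k, StronglyWoody G c) :
    k + 1 ≤ zeta G := by
  refine le_csInf (zeta_set_nonempty G) ?_
  rintro m ⟨c, hc⟩
  by_contra hlt
  push_neg at hlt
  exact h ⟨(Fin.castLE (Nat.lt_succ_iff.mp hlt)) ∘ c,
    hc.comp_injective (Fin.castLE_injective _)⟩

end basic

end Pool.Agent.Q271.SA
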