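import Pool.Agent.Q271.SA.Defs
import Mathlib.Tactic.FinCases

set_option autoImplicit false

/-!
# MP_5ca9a4: the strong arboricity can exceed the colouring number
-/

namespace Pool.Agent.Q271.SA.FiveCA

open SimpleGraph Pool.Agent.Q271.SA

/-- The 19 edges `(a, b)`, `a < b`, of the counterexample: `0, 1` adjacent; `2, 3, 4` adjacent to
`0` and `1`; for each pair of `2, 3, 4` two further vertices adjacent to both members. -/
def edgeB (u v : Fin 11) : Bool :=
  match u.val, v.val with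
  | 0, 1 => true
  | 0, 2 => true
  | 0, 3 => true
  | 0, 4 => true
  | 1, 2 => true
  | 1, 3 => true
  | 1, 4 => true
  | 2, 5 => true
  | 3, 5 => true
  | 2, 6 => true
  | 3, 6 => true
  | 2, 7 => true
  | 4, 7 => true
  | 2, 8 => true
  | 4, 8 => true
  | 3, 9 => true
  | 4, 9 => true
  | 3, 10 => true
  | 4, 10 => true
  | _, _ => false

/-- The counterexample. -/
def G : SimpleGraph (Fin 11) where
  Adj u v := edgeB u v = true ∨ edgeB v u = true
  symm := ⟨fun u v h => h.symm⟩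
  loopless := ⟨by decide⟩

instance : DecidableRel G.Adj := fun u v =>
  inferInstanceAs (Decidable (edgeB u v = true ∨ edgeB v u = true))

lemma pair {x y u u' v v' : Fin 11} {c : Sym2 (Fin 11) → Fin 3} (h : StronglyWoody G c)
    (xu : G.Adj x u) (xu' : G.Adj x u') (yu : G.Adj y u) (yu' : G.Adj y u')
    (vu : G.Adj v u) (vu' : G.Adj v u') (wu : G.Adj v' u) (wu' : G.Adj v' u')
    (huu : u ≠ u') (hxv : x ≠ v) (hxw : x ≠ v') (hyv : y ≠ v) (hyw : y ≠ v') (hvw : v ≠ v')
    (h1 : c s(x, u) = c s(x, u')) (h2 : c s(y, u) = c s(y, u')) (h3 : c s(x, u) ≠ c s(y, u)) :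
    False := by
  -- the edges at `v` avoid the colours of `xu` and `yu`
  have key : ∀ {z w : Fin 11}, G.Adj z u → G.Adj z u' → G.Adj w u → G.Adj w u' → z ≠ w →
      c s(z, u) = c s(z, u') → c s(w, u) ≠ c s(z, u) ∧ c s(w, u') ≠ c s(z, u) := by
    intro z w zu zu' wu wu' hzw hz
    constructor
    · intro he
      -- cycle w u z u'
      exact h.square (x := w) (y := u) (z := z) (w := u') wu zu.symm zu' wu'.symm hzw.symm huu
        (by rw [he, Sym2.eq_swap]) (by rw [Sym2.eq_swap, hz])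
    · intro he
      exact h.square (x := w) (y := u') (z := z) (w := u) wu' zu'.symm zu wu.symm hzw.symm
        huu.symm (by rw [he, hz, Sym2.eq_swap]) (by rw [Sym2.eq_swap, ← hz])
  obtain ⟨a1, a2⟩ := key xu xu' vu vu' hxv h1
  obtain ⟨a3, a4⟩ := key yu yu' vu vu' hyv h2
  obtain ⟨b1, b2⟩ := key xu xu' wu wu' hxw h1
  obtain ⟨b3, b4⟩ := key yu yu' wu wu' hyw h2
  have third : ∀ a b p q : Fin 3, a ≠ b → p ≠ a → p ≠ b → q ≠ a → q ≠ b → p = q := by decide
  have e1 : c s(v, u) = c s(v, u') := third _ _ _ _ h3 a1 a3 a2 a4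
  have e2 : c s(v', u) = c s(v, u) := third _ _ _ _ h3 b1 b3 a1 a3
  -- cycle u v u' v'
  exact (key vu vu' wu wu' hvw e1).1 e2

lemma no_three : ¬ ∃ c : Sym2 (Fin 11) → Fin 3, StronglyWoody G c := by
  rintro ⟨c, h⟩
  have adj : ∀ u v : Fin 11, (edgeB u v || edgeB v u) = true → G.Adj u v := by
    intro u v huv
    rw [Bool.or_eq_true] at huv
    exact huv
  -- triangle relations
  have tri : ∀ u : Fin 11, G.Adj 0 u → G.Adj 1 u →
      c s(0, u) ≠ c s(1, u) ∧ c s(0, 1) ≠ c s(1, u) ∧ c s(0, 1) ≠ c s(0, u) := by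
    intro u h0 h1
    refine ⟨?_, ?_, ?_⟩
    · have := h.triangle (u := 0) (v := u) (w := 1) h0 h1.symm (adj 1 0 (by decide))
      rwa [Sym2.eq_swap (a := u) (b := 1)] at this
    · exact h.triangle (u := 0) (v := 1) (w := u) (adj 0 1 (by decide)) h1 h0.symm
    · have := h.triangle (u := 1) (v := 0) (w := u) (adj 1 0 (by decide)) h0 h1.symm
      rwa [Sym2.eq_swap (a := 1) (b := 0)] at this
  obtain ⟨p1, p2, p3⟩ := tri 2 (adj _ _ (by decide)) (adj _ _ (by decide))
  obtain ⟨q1, q2, q3⟩ := tri 3 (adj _ _ (by decide)) (adj _ _ (by decide))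
  obtain ⟨r1, r2, r3⟩ := tri 4 (adj _ _ (by decide)) (adj _ _ (by decide))
  have pig : ∀ t a a' b b' d d' : Fin 3, a ≠ a' → t ≠ a' → t ≠ a → b ≠ b' → t ≠ b' → t ≠ b →
      d ≠ d' → t ≠ d' → t ≠ d → (a = b ∧ a' = b') ∨ (a = d ∧ a' = d') ∨ (b = d ∧ b' = d') := by
    decide
  rcases pig _ _ _ _ _ _ _ p1 p2 p3 q1 q2 q3 r1 r2 r3 with ⟨e1, e2⟩ | ⟨e1, e2⟩ | ⟨e1, e2⟩
  · exact pair (x := 0) (y := 1) (u := 2) (u' := 3) (v := 5) (v' := 6) h
      (adj _ _ (by decide)) (adj _ _ (by decide)) (adj _ _ (by decide)) (adj _ _ (by decide))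
      (adj _ _ (by decide)) (adj _ _ (by decide)) (adj _ _ (by decide)) (adj _ _ (by decide))
      (by decide) (by decide) (by decide) (by decide) (by decide) (by decide) e1 e2 p1
  · exact pair (x := 0) (y := 1) (u := 2) (u' := 4) (v := 7) (v' := 8) h
      (adj _ _ (by decide)) (adj _ _ (by decide)) (adj _ _ (by decide)) (adj _ _ (by decide))
      (adj _ _ (by decide)) (adj _ _ (by decide)) (adj _ _ (by decide)) (adj _ _ (by decide))
      (by decide) (by decide) (by decide) (by decide) (by decide) (by decide) e1 e2 p1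
  · exact pair (x := 0) (y := 1) (u := 3) (u' := 4) (v := 9) (v' := 10) h
      (adj _ _ (by decide)) (adj _ _ (by decide)) (adj _ _ (by decide)) (adj _ _ (by decide))
      (adj _ _ (by decide)) (adj _ _ (by decide)) (adj _ _ (by decide)) (adj _ _ (by decide))
      (by decide) (by decide) (by decide) (by decide) (by decide) (by decide) e1 e2 q1

lemma back : BackDeg G (finCongr (Fintype.card_fin 11).symm) 2 := by
  have hcard : ∀ v : Fin 11, (Finset.univ.filter (fun w : Fin 11 => G.Adj v w ∧ w < v)).card ≤ 2 :=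
    by decide
  intro v
  have h : {w : Fin 11 | G.Adj v w ∧ (finCongr (Fintype.card_fin 11).symm) w <
      (finCongr (Fintype.card_fin 11).symm) v} =
      ((Finset.univ.filter (fun w : Fin 11 => G.Adj v w ∧ w < v) : Finset (Fin 11)) :
        Set (Fin 11)) := by
    apply Set.ext
    intro w
    rw [Finset.mem_coe, Finset.mem_filter, Set.mem_setOf_eq]
    constructor
    · rintro ⟨h1, h2⟩
      exact ⟨Finset.mem_univ _, h1, h2⟩
    · rintro ⟨_, h1, h2⟩
      exact ⟨h1, h2⟩
  rw [h, Set.ncard_coe_finset]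
  exact hcard v

lemma col_le : col G ≤ 3 := by
  have : sInf {r : ℕ | ∃ σ : Fin 11 ≃ Fin (Fintype.card (Fin 11)), BackDeg G σ r} ≤ 2 :=
    Nat.sInf_le ⟨_, back⟩
  unfold col
  omega

end Pool.Agent.Q271.SA.FiveCA
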