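import Pool.Agent.Q271.SA.Defs
import Pool.Agent.H709Exc.J_girth_graph

set_option autoImplicit false

/-!
# Large girth does not force the strong arboricity to equal the arboricity
-/

namespace Pool.Agent.Q271.SA.Gir

open SimpleGraph Pool.Agent.Q271.SA

variable {V : Type} {k : ℕ}

/-- The graph of the edges of `G` with colour `i`. -/
def cls (G : SimpleGraph V) (c : Sym2 V → Fin k) (i : Fin k) : SimpleGraph V where
  Adj u v := G.Adj u v ∧ c s(u, v) = i
  symm := ⟨fun u v h => ⟨h.1.symm, by rw [Sym2.eq_swap]; exact h.2⟩⟩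
  loopless := ⟨fun u h => G.loopless.irrefl u h.1⟩

lemma cls_adj {G : SimpleGraph V} {c : Sym2 V → Fin k} {i : Fin k} {u v : V} :
    (cls G c i).Adj u v ↔ G.Adj u v ∧ c s(u, v) = i := Iff.rfl

lemma cls_le (G : SimpleGraph V) (c : Sym2 V → Fin k) (i : Fin k) : cls G c i ≤ G :=
  fun _ _ h => h.1

lemma edge_cls {G : SimpleGraph V} {c : Sym2 V → Fin k} {i : Fin k} {e : Sym2 V}
    (h : e ∈ (cls G c i).edgeSet) : c e = i := by
  induction e with
  | h u v => exact h.2

lemma mem_edge_cls {G : SimpleGraph V} {c : Sym2 V → Fin k} {i : Fin k} {e : Sym2 V} :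
    e ∈ (cls G c i).edgeSet ↔ e ∈ G.edgeSet ∧ c e = i := by
  induction e with
  | h u v => exact Iff.rfl

lemma woody_iff {G : SimpleGraph V} {c : Sym2 V → Fin k} :
    Woody G c ↔ ∀ i, (cls G c i).IsAcyclic := by
  constructor
  · intro h i v p hp
    refine h v (p.mapLe (cls_le G c i)) (hp.mapLe _) ⟨i, fun f hf => ?_⟩
    rw [Walk.edges_mapLe_eq_edges] at hf
    exact edge_cls (p.edges_subset_edgeSet hf)
  · rintro h v p hp ⟨a, ha⟩
    have hq : ∀ e ∈ p.edges, e ∈ (cls G c a).edgeSet := fun e he =>
      mem_edge_cls.mpr ⟨p.edges_subset_edgeSet he, ha e he⟩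
    exact h a (p.transfer _ hq) (hp.transfer hq)

/-- Upper bound for the number of edges of a woody `k`-coloured graph. -/
lemma Woody.card_le [Fintype V] [Nonempty V] {G : SimpleGraph V} {c : Sym2 V → Fin k}
    (h : Woody G c) : G.edgeSet.ncard ≤ k * (Fintype.card V - 1) := by
  classical
  rw [woody_iff] at h
  have h1 : G.edgeSet ⊆ ⋃ i ∈ (Finset.univ : Finset (Fin k)), (cls G c i).edgeSet := by
    intro e he
    simp only [Set.mem_iUnion, Finset.mem_univ, exists_prop, true_and]
    exact ⟨c e, mem_edge_cls.mpr ⟨he, rfl⟩⟩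
  have hfin : (⋃ i ∈ (Finset.univ : Finset (Fin k)), (cls G c i).edgeSet).Finite := Set.toFinite _
  refine (Set.ncard_le_ncard h1 hfin).trans ?_
  refine (Finset.set_ncard_biUnion_le _ _).trans ?_
  have h2 : ∀ i ∈ (Finset.univ : Finset (Fin k)), ((cls G c i).edgeSet).ncard ≤
      Fintype.card V - 1 := by
    intro i _
    have hconn : (⊤ : SimpleGraph V).Connected := connected_top
    obtain ⟨T, hT1, -, hT⟩ := hconn.exists_isTree_le_of_le_of_isAcyclic le_top (h i)
    have h3 := hT.card_edgeFinset
    have h4 : ((cls G c i).edgeSet).ncard ≤ T.edgeSet.ncard :=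
      Set.ncard_le_ncard (edgeSet_mono hT1) (Set.toFinite _)
    have h5 : T.edgeSet.ncard = T.edgeFinset.card := by
      rw [← coe_edgeFinset, Set.ncard_coe_finset]
    omega
  refine (Finset.sum_le_card_nsmul _ _ _ h2).trans ?_
  simp

/-- A nonempty finite graph in which every vertex has at least `2k` neighbours has no woody
`k`-colouring, `k ≥ 1`. -/
lemma no_woody [Fintype V] [Nonempty V] {G : SimpleGraph V} (hk : 1 ≤ k)
    (hd : ∀ v, ∃ S : Finset V, 2 * k ≤ S.card ∧ ∀ w ∈ S, G.Adj v w) :
    ¬ ∃ c : Sym2 V → Fin k, Woody G c := by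
  classical
  rintro ⟨c, hc⟩
  have h1 := Woody.card_le hc
  have h2 : G.edgeSet.ncard = G.edgeFinset.card := by
    rw [← coe_edgeFinset, Set.ncard_coe_finset]
  have h3 := G.sum_degrees_eq_twice_card_edges
  have h4 : Fintype.card V * (2 * k) ≤ ∑ v, G.degree v := by
    have : ∑ _v : V, 2 * k ≤ ∑ v, G.degree v := by
      apply Finset.sum_le_sum
      intro v _
      obtain ⟨S, hS, hadj⟩ := hd v
      refine hS.trans ?_
      rw [← card_neighborFinset_eq_degree]
      apply Finset.card_le_card
      intro w hw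
      rw [mem_neighborFinset]
      exact hadj w hw
    simpa using this
  have h5 : 1 ≤ Fintype.card V := Fintype.card_pos
  have h6 : k * (Fintype.card V - 1) + k = Fintype.card V * k := by
    obtain ⟨m, hm⟩ : ∃ m, Fintype.card V = m + 1 := ⟨Fintype.card V - 1, by omega⟩
    rw [hm]
    simp
    ring
  have h7 : Fintype.card V * (2 * k) = 2 * (Fintype.card V * k) := by ring
  omega

/-- Key step: if `H` has no woody `k`-colouring, `k ≥ 2`, and `uv` is an edge of `H`, then
`H - uv` has no strongly woody `k`-colouring. -/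
lemma no_stronglyWoody {H : SimpleGraph V} {u v : V} (huv : H.Adj u v) (hk : 2 ≤ k)
    (hH : ¬ ∃ c : Sym2 V → Fin k, Woody H c) :
    ¬ ∃ c : Sym2 V → Fin k, StronglyWoody (H.deleteEdges {s(u, v)}) c := by
  classical
  rintro ⟨c, hc⟩
  set K := H.deleteEdges {s(u, v)} with hK
  have hKadj : ∀ {a b : V}, K.Adj a b ↔ H.Adj a b ∧ s(a, b) ≠ s(u, v) := by
    intro a b
    rw [hK, deleteEdges_adj]
    simp
  have hwoody : Woody K c := by
    rintro a p hp ⟨i, hi⟩
    have h3 := hp.three_le_length
    rw [← p.length_edges] at h3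
    obtain ⟨e, he⟩ : ∃ e, e ∈ p.edges := by
      cases hpe : p.edges with
      | nil => rw [hpe] at h3; simp at h3
      | cons e l => exact ⟨e, by simp⟩
    exact hc a p hp e he ⟨i, fun f hf _ => hi f hf⟩
  rw [woody_iff] at hwoody
  obtain ⟨i0, i1, h01⟩ : ∃ i0 i1 : Fin k, i0 ≠ i1 :=
    ⟨⟨0, by omega⟩, ⟨1, by omega⟩, by simp [Fin.ext_iff]⟩
  -- a general recolouring of `H`
  have hreach : (cls K c i0).Reachable u v := by
    by_contra hnr
    apply hH
    refine ⟨Function.update c s(u, v) i0, woody_iff.mpr fun i => ?_⟩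
    by_cases hi : i = i0
    · subst hi
      refine ((hwoody i).sup_edge_of_not_reachable hnr).anti ?_
      intro a b hab
      obtain ⟨h1, h2⟩ := hab
      by_cases he : s(a, b) = s(u, v)
      · right
        rw [edge_adj]
        refine ⟨?_, h1.ne⟩
        rw [Sym2.eq_iff] at he
        rcases he with ⟨h, h'⟩ | ⟨h, h'⟩
        · exact Or.inl ⟨h, h'⟩
        · exact Or.inr ⟨h, h'⟩
      · left
        rw [Function.update_of_ne he] at h2
        exact ⟨hKadj.mpr ⟨h1, he⟩, h2⟩
    · refine (hwoody i).anti ?_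
      intro a b hab
      obtain ⟨h1, h2⟩ := hab
      by_cases he : s(a, b) = s(u, v)
      · rw [he, Function.update_self] at h2
        exact absurd h2.symm hi
      · rw [Function.update_of_ne he] at h2
        exact ⟨hKadj.mpr ⟨h1, he⟩, h2⟩
  obtain ⟨q, hq⟩ := hreach.exists_isPath
  cases q with
  | nil => exact huv.ne rfl
  | @cons _ x _ hux q' =>
    have hxK : K.Adj u x := hux.1
    have hcx : c s(u, x) = i0 := hux.2
    have hxe : s(u, x) ≠ s(u, v) := (hKadj.mp hxK).2
    -- the class `i1` does not connect `u` and `x`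
    have hn1 : ¬ (cls K c i1).Reachable u x := by
      intro hr
      obtain ⟨r, hr⟩ := hr.exists_isPath
      have hnot : s(x, u) ∉ (r.mapLe (cls_le K c i1)).edges := by
        rw [Walk.edges_mapLe_eq_edges]
        intro hmem
        have := edge_cls (r.edges_subset_edgeSet hmem)
        rw [Sym2.eq_swap, hcx] at this
        exact h01 this
      have hcyc : (Walk.cons hxK.symm (r.mapLe (cls_le K c i1))).IsCycle := by
        rw [Walk.cons_isCycle_iff]
        exact ⟨hr.mapLe _, hnot⟩
      refine hc x _ hcyc s(x, u) (by simp) ⟨i1, ?_⟩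
      intro f hf hne
      rw [Walk.edges_cons, List.mem_cons] at hf
      rcases hf with rfl | hf
      · exact absurd rfl hne
      · rw [Walk.edges_mapLe_eq_edges] at hf
        exact edge_cls (r.edges_subset_edgeSet hf)
    -- the class `i0` without `ux` does not connect `u` and `v`
    set F := (cls K c i0).deleteEdges {s(u, x)} with hF
    have hFle : F ≤ cls K c i0 := deleteEdges_le _
    have hn0 : ¬ F.Reachable u v := by
      intro hr
      obtain ⟨r, hr⟩ := hr.exists_isPath
      have heq := (hwoody i0).path_unique ⟨r.mapLe hFle, hr.mapLe _⟩ ⟨_, hq⟩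
      have h1 : (r.mapLe hFle) = Walk.cons hux q' := congrArg Subtype.val heq
      have h2 : s(u, x) ∈ (r.mapLe hFle).edges := by
        rw [h1]
        simp
      rw [Walk.edges_mapLe_eq_edges] at h2
      have h3 := r.edges_subset_edgeSet h2
      rw [hF] at h3
      simp [deleteEdges_adj] at h3
    apply hH
    refine ⟨Function.update (Function.update c s(u, v) i0) s(u, x) i1, woody_iff.mpr fun i => ?_⟩
    by_cases hi0 : i = i0
    · subst hi0
      refine (((hwoody i).anti hFle).sup_edge_of_not_reachable hn0).anti ?_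
      intro a b hab
      obtain ⟨h1, h2⟩ := hab
      by_cases hx : s(a, b) = s(u, x)
      · rw [hx, Function.update_self] at h2
        exact absurd h2.symm h01
      · rw [Function.update_of_ne hx] at h2
        by_cases he : s(a, b) = s(u, v)
        · right
          rw [edge_adj]
          refine ⟨?_, h1.ne⟩
          rw [Sym2.eq_iff] at he
          rcases he with ⟨h, h'⟩ | ⟨h, h'⟩
          · exact Or.inl ⟨h, h'⟩
          · exact Or.inr ⟨h, h'⟩
        · left
          rw [Function.update_of_ne he] at h2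
          rw [hF, deleteEdges_adj]
          exact ⟨⟨hKadj.mpr ⟨h1, he⟩, h2⟩, by simpa using hx⟩
    · by_cases hi1 : i = i1
      · subst hi1
        refine ((hwoody i).sup_edge_of_not_reachable hn1).anti ?_
        intro a b hab
        obtain ⟨h1, h2⟩ := hab
        by_cases hx : s(a, b) = s(u, x)
        · right
          rw [edge_adj]
          refine ⟨?_, h1.ne⟩
          rw [Sym2.eq_iff] at hx
          rcases hx with ⟨h, h'⟩ | ⟨h, h'⟩
          · exact Or.inl ⟨h, h'⟩
          · exact Or.inr ⟨h, h'⟩
        · rw [Function.update_of_ne hx] at h2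
          left
          by_cases he : s(a, b) = s(u, v)
          · rw [he, Function.update_self] at h2
            exact absurd h2.symm hi0
          · rw [Function.update_of_ne he] at h2
            exact ⟨hKadj.mpr ⟨h1, he⟩, h2⟩
      · refine (hwoody i).anti ?_
        intro a b hab
        obtain ⟨h1, h2⟩ := hab
        by_cases hx : s(a, b) = s(u, x)
        · rw [hx, Function.update_self] at h2
          exact absurd h2.symm hi1
        · rw [Function.update_of_ne hx] at h2
          by_cases he : s(a, b) = s(u, v)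
          · rw [he, Function.update_self] at h2
            exact absurd h2.symm hi0
          · rw [Function.update_of_ne he] at h2
            exact ⟨hKadj.mpr ⟨h1, he⟩, h2⟩

theorem main (k g : ℕ) (hk : 2 ≤ k) :
    ∃ (V : Type) (_ : Fintype V) (G : SimpleGraph V), arb G ≤ k ∧ k + 1 ≤ zeta G ∧
      (g : ℕ∞) ≤ G.egirth := by
  classical
  obtain ⟨V, hF, hN, G0, hd, hg⟩ := Pool.Agent.H709Exc.girth_graph.{0} (2 * k) g
  -- an edge-minimal subgraph without woody `k`-colouring
  let P : Set (SimpleGraph V) := {H | H ≤ G0 ∧ ¬ ∃ c : Sym2 V → Fin k, Woody H c}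
  have hP : P.Nonempty := ⟨G0, le_rfl, no_woody (by omega) hd⟩
  obtain ⟨H, hH, hmin⟩ := (Set.toFinite P).exists_minimal hP
  -- it has an edge
  have hex : ∃ u v, H.Adj u v := by
    by_contra hcon
    push Not at hcon
    apply hH.2
    refine ⟨fun _ => ⟨0, by omega⟩, ?_⟩
    rintro a p hp -
    cases p with
    | nil => exact hp.not_nil (by simp)
    | cons h _ => exact hcon _ _ h
  obtain ⟨u, v, huv⟩ := hex
  have hle : H.deleteEdges {s(u, v)} ≤ H := deleteEdges_le _
  have hno := no_stronglyWoody huv hk hH.2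
  have hwoody : ∃ c : Sym2 V → Fin k, Woody (H.deleteEdges {s(u, v)}) c := by
    by_contra hcon
    have := hmin (y := H.deleteEdges {s(u, v)}) ⟨hle.trans hH.1, hcon⟩ hle
    have h1 := this huv
    simp [deleteEdges_adj] at h1
  refine ⟨V, hF, H.deleteEdges {s(u, v)}, Nat.sInf_le hwoody, le_zeta_of hno, ?_⟩
  rw [le_egirth]
  intro a w hw
  have hle' := hle.trans hH.1
  have := hg a (w.mapLe hle') (hw.mapLe _)
  rw [← Walk.length_edges, Walk.edges_mapLe_eq_edges, Walk.length_edges] at this
  exact_mod_cast this.le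

end Pool.Agent.Q271.SA.Gir
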